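import Mathlib
import Pool.Agent.H806.PD.GE

/-!
# Sums of two distinct, almost equal odd primes from thin sets given by polynomials modulo 1

Let `P`, `R` be real polynomials of degree at least two whose leading coefficients are of finite type (not
approximable by fractions `a / q` to arbitrarily high powers of `1 / q`, e.g. algebraic irrational numbers). There is
`η > 0` such that:

1. for all `A`, `W` and `ε > 0`, all but at most `N / (log N)^A` of the even `n ≤ N` have the following properties: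
   (a) for ALL real `u`, `v` there are odd primes `p < p'` with `p + p' = n`, `p' - p ≤ n / (log n)^W`,
   `‖P(p) - u‖ ≤ n^(-η)` and `‖R(p') - v‖ ≤ n^(-η)`; (b) in all windows of length at least `n / (log n)^W` the number
   of the primes `p` with `n - p` prime and with `P(p)`, `R(n - p)` modulo 1 in prescribed arcs of lengths
   `b₁`, `b₂ ≥ n^(-η)` is `b₁ b₂` times the number predicted by Hardy and Littlewood, up to a relative error `ε`;
2. for all but at most `N^(1 - η)` of ALL `n ≤ N`, the pairs `(P(p), R(n - p))` modulo 1, over the primes `p` in a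
   window with `n - p` prime and `p ≡ a (mod q)`, are equidistributed with an error at most `N^(1 - η)`, for all
   windows, all `q ≤ N^η`, all `a` and all arcs, however many such primes there are.

Proof (`H806/PD`): Vaughan's identity and Weyl's method give a power saving for `∑ e(k P(p) + β p)`, `p ≤ y` prime,
uniformly in `β` and in `0 < |k| ≤ N^η`. Parseval's identity gives a power saving for the mean square over `n` of
the sums `∑ e(k P(p) + l R(n - p))` over the representations; the union over the windows, the classes and the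
frequencies, and a Fourier majorant of an arc give (2). The theorem on Goldbach representations in windows for almost
all even integers (`TH935/GF`, `W93/PG`) then gives (1).
-/

set_option autoImplicit false

namespace Pool.Agent.Results.MP_61161c_nt.PolynomialBohrSets

open Finset Polynomial

/-- `α` is of finite type: `|q α - a| ≥ κ q^(-τ)` for some `κ > 0`, `τ` and all integers `q ≥ 1`, `a`. -/
def FiniteType (α : ℝ) : Prop :=
  ∃ (τ : ℕ) (κ : ℝ), 0 < κ ∧ ∀ q : ℕ, 1 ≤ q → ∀ a : ℤ, κ / (q : ℝ) ^ τ ≤ |q * α - a|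

/-- The number of the primes `p ≡ a (mod q)`, `y₁ < p ≤ y₂`, with `n - p` prime. (If `p ≥ n`, then `n - p = 0` in the
natural numbers, which is not prime.) -/
def sums (a q n y₁ y₂ : ℕ) : ℕ :=
  ((Ioc y₁ y₂).filter (fun p : ℕ => p.Prime ∧ (n - p).Prime ∧ p ≡ a [MOD q])).card

open Classical in
/-- The number of those among them with `P(p) ∈ [a₁, a₁ + b₁)` and `R(n - p) ∈ [a₂, a₂ + b₂)` modulo 1. -/
noncomputable def arcSums (P R : ℝ[X]) (a q n y₁ y₂ : ℕ) (a₁ b₁ a₂ b₂ : ℝ) : ℕ :=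
  ((Ioc y₁ y₂).filter (fun p : ℕ => (p.Prime ∧ (n - p).Prime ∧ p ≡ a [MOD q]) ∧
    Int.fract (P.eval (p : ℝ) - a₁) < b₁ ∧ Int.fract (R.eval (((n - p : ℕ)) : ℝ) - a₂) < b₂)).card

/-- The number of the primes `y₁ < p ≤ y₂` with `n - p` prime predicted by Hardy and Littlewood, for an even `n` and
`y₂ ≤ n`; `C₂ = ∏_{p > 2} (1 - 1 / (p - 1) ^ 2)`. -/
noncomputable def predicted (n y₁ y₂ : ℕ) : ℝ :=
  2 * Pool.Agent.H560R3.GB.C₂ * (∏ p ∈ n.primeFactors.filter (fun p => 2 < p), ((p : ℝ) - 1) / ((p : ℝ) - 2)) *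
    ((y₂ : ℝ) - y₁) / Real.log n ^ 2

/-- `n` is a sum of two distinct odd primes `p < p'` with `p' - p ≤ n / (log n)^W` and with `P(p)`, `R(p')` modulo 1
at a distance of at most `n^(-η)` from `u`, `v`, for all real `u`, `v`. -/
def Represented (P R : ℝ[X]) (η : ℝ) (W n : ℕ) : Prop :=
  ∀ u v : ℝ, ∃ p p' : ℕ, p.Prime ∧ p'.Prime ∧ p ≠ 2 ∧ p' ≠ 2 ∧ p < p' ∧ p + p' = n ∧
    (p' : ℝ) - p ≤ n / Real.log n ^ W ∧ (∃ m : ℤ, |P.eval (p : ℝ) - u - m| ≤ (n : ℝ) ^ (-η)) ∧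
    ∃ m : ℤ, |R.eval (p' : ℝ) - v - m| ≤ (n : ℝ) ^ (-η)

/-- Let `P`, `R` be real polynomials of degree at least two whose leading coefficients are of finite type. There is
`η > 0` with (1), (2) below. In (1), `E` does not depend on the targets `u`, `v`, the windows and the arcs; in (2) it
does not depend on the modulus, the class, the window and the arcs. -/
theorem result (P R : ℝ[X]) (hP : 2 ≤ P.natDegree) (hR : 2 ≤ R.natDegree) (hPα : FiniteType P.leadingCoeff)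
    (hRα : FiniteType R.leadingCoeff) :
    ∃ η : ℝ, 0 < η ∧
      -- (1) almost all even `n` are sums of two primes from the prescribed thin sets, with the predicted numbers
      (∀ (A W : ℕ) (ε : ℝ), 0 < ε → ∃ N₀ : ℕ, ∀ N : ℕ, N₀ ≤ N → ∃ E : Finset ℕ, (E.card : ℝ) ≤ N / Real.log N ^ A ∧
        ∀ n : ℕ, 0 < n → Even n → n ≤ N → n ∉ E → Represented P R η W n ∧
        ∀ y₁ y₂ : ℕ, y₁ < y₂ → y₂ ≤ n → (n : ℝ) / Real.log n ^ W ≤ (y₂ : ℝ) - y₁ → ∀ a₁ b₁ a₂ b₂ : ℝ,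
          (n : ℝ) ^ (-η) ≤ b₁ → b₁ ≤ 1 → (n : ℝ) ^ (-η) ≤ b₂ → b₂ ≤ 1 →
          |(arcSums P R 0 1 n y₁ y₂ a₁ b₁ a₂ b₂ : ℝ) - b₁ * b₂ * predicted n y₁ y₂| ≤
            ε * (b₁ * b₂ * predicted n y₁ y₂)) ∧
      -- (2) equidistribution with a power saving, for all `n ≤ N` outside a set of at most `N ^ (1 - η)` elements
      (∃ N₀ : ℕ, ∀ N : ℕ, N₀ ≤ N → ∃ E : Finset ℕ, (E.card : ℝ) ≤ (N : ℝ) ^ (1 - η) ∧
        ∀ n : ℕ, n ≤ N → n ∉ E → ∀ q : ℕ, 1 ≤ q → (q : ℝ) ≤ (N : ℝ) ^ η → ∀ a y₁ y₂ : ℕ, y₁ ≤ y₂ → y₂ ≤ N →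
        ∀ a₁ b₁ a₂ b₂ : ℝ, 0 ≤ b₁ → b₁ ≤ 1 → 0 ≤ b₂ → b₂ ≤ 1 →
          |(arcSums P R a q n y₁ y₂ a₁ b₁ a₂ b₂ : ℝ) - b₁ * b₂ * sums a q n y₁ y₂| ≤ (N : ℝ) ^ (1 - η)) := by
  obtain ⟨τ₁, κ₁, h1⟩ := hPα
  obtain ⟨τ₂, κ₂, h2⟩ := hRα
  obtain ⟨η₀, h00, h01, N₀, hmain⟩ := Pool.Agent.H806.PD.main_gold P.natDegree R.natDegree hP hR τ₁ τ₂ κ₁ κ₂ _ _ h1 h2
    P R le_rfl rfl le_rfl rfl
  obtain ⟨N₁, hwin⟩ := Pool.Agent.H806.PD.gold_window P R η₀ h00 N₀ hmain
  set η : ℝ := η₀ / 16 with hη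
  have hη0 : 0 < η := by rw [hη]; positivity
  have hηa : η₀ / 2 / 8 = η := by rw [hη]; ring
  refine ⟨η, hη0, ?_, ?_⟩
  · intro A W ε hε
    obtain ⟨n0, h0⟩ := Pool.Agent.H806.PD.grep_of P R η hη0 W
    have hε' : 0 < min ε (1 / 2) := lt_min hε (by norm_num)
    obtain ⟨n1, h3⟩ := Pool.Agent.H806.PD.gold_almost P R (η₀ / 2) (by positivity) (by linarith) N₁ hwin
      (min ε (1 / 2)) hε' A (W + 2)
    obtain ⟨n2, h4⟩ := Pool.Agent.H806.PD.ev_pow (n0 + 4 : ℕ) (1 / 2) (by norm_num)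
    refine ⟨n1 + n2, fun N hN => ?_⟩
    obtain ⟨E, hE1, hE2⟩ := h3 N (by omega)
    refine ⟨E, hE1, fun n hn0 hne hnN hnE => ?_⟩
    obtain ⟨hnhalf, hn⟩ := hE2 n hn0 hne hnN hnE
    have hnn : n0 + 4 ≤ n := by
      have := (h4 N (by omega)).trans hnhalf
      exact_mod_cast this
    have hn4 : (4 : ℝ) ≤ n := by exact_mod_cast (by omega : 4 ≤ n)
    have hn0r : (0 : ℝ) < n := by linarith
    have hL1 : 1 ≤ Real.log n := by
      rw [Real.le_log_iff_exp_le hn0r]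
      have := Real.exp_one_lt_d9
      linarith
    have hs := Pool.Agent.W93.GB.one_le_sing n
    rw [hηa] at hn
    constructor
    · apply h0 n (by omega) hne
      intro y₁ y₂ hy hyn hlen a₁ b₁ a₂ b₂ hb1 hb1' hb2 hb2'
      refine (hn y₁ y₂ hy hyn hlen a₁ b₁ a₂ b₂ hb1 hb1' hb2 hb2').trans ?_
      have hb10 : 0 < b₁ := lt_of_lt_of_le (by positivity) hb1
      have hb20 : 0 < b₂ := lt_of_lt_of_le (by positivity) hb2
      have hD : (0 : ℝ) < (y₂ : ℝ) - y₁ := by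
        have : (y₁ : ℝ) < y₂ := by exact_mod_cast hy
        linarith
      exact mul_le_mul_of_nonneg_right (min_le_right _ _) (by positivity)
    · intro y₁ y₂ hy hyn hlen a₁ b₁ a₂ b₂ hb1 hb1' hb2 hb2'
      have hlen' : (n : ℝ) / Real.log n ^ (W + 2) ≤ (y₂ : ℝ) - y₁ := by
        refine le_trans ?_ hlen
        apply div_le_div_of_nonneg_left hn0r.le (by positivity)
        exact pow_le_pow_right₀ hL1 (by omega)
      have hb10 : 0 < b₁ := lt_of_lt_of_le (by positivity) hb1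
      have hb20 : 0 < b₂ := lt_of_lt_of_le (by positivity) hb2
      have hD : (0 : ℝ) < (y₂ : ℝ) - y₁ := by
        have : (y₁ : ℝ) < y₂ := by exact_mod_cast hy
        linarith
      have key := hn y₁ y₂ hy hyn hlen' a₁ b₁ a₂ b₂ hb1 hb1' hb2 hb2'
      have e : Pool.Agent.H560R3.GB.sing n * ((y₂ : ℝ) - y₁) / Real.log n ^ 2 = predicted n y₁ y₂ := by
        unfold Pool.Agent.H560R3.GB.sing predicted
        rfl
      have hpos : 0 ≤ b₁ * b₂ * predicted n y₁ y₂ := by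
        rw [← e]; positivity
      rw [e] at key
      exact key.trans (mul_le_mul_of_nonneg_right (min_le_left _ _) hpos)
  · refine ⟨N₁ + 1, fun N hN => ?_⟩
    have hN1 : (1 : ℝ) ≤ N := by exact_mod_cast (by omega : 1 ≤ N)
    have hle : (N : ℝ) ^ (1 - η₀ / 2) ≤ (N : ℝ) ^ (1 - η) := Real.rpow_le_rpow_of_exponent_le hN1 (by linarith)
    have hle2 : (N : ℝ) ^ η ≤ (N : ℝ) ^ (η₀ / 2) := Real.rpow_le_rpow_of_exponent_le hN1 (by linarith)
    obtain ⟨E, hE1, hE2⟩ := hwin N (by omega)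
    exact ⟨E, hE1.trans hle, fun n hn hnE q hq1 hqN a y₁ y₂ hy hyN a₁ b₁ a₂ b₂ hb1 hb1' hb2 hb2' =>
      (hE2 n hn hnE q hq1 (hqN.trans hle2) a y₁ y₂ hy hyN a₁ b₁ a₂ b₂ hb1 hb1' hb2 hb2').trans hle⟩

end Pool.Agent.Results.MP_61161c_nt.PolynomialBohrSets
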