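import Pool.Agent.helper616_TZ.Main

/-!
# Two primes and one element of a sparse sequence, with almost all real coefficients

Let `Z` be a set of natural numbers with an element in every interval `[X, R X]` (for example the powers of `2`). For almost
all positive real coefficients `l 0`, `l 1`, `l 2` every sufficiently large real number `t` is approximated within any
given `h > 0` by a sum `l 0 * z + l 1 * p + l 2 * q` with `z ∈ Z` and primes `p`, `q`.

Proof: (1) for two primes the variance of the number of the representations over the coefficients and over `t ≤ T`
together with the distribution of the primes in almost all intervals of length `X ^ (2 / 5)` (any exponent above `1 / 3`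
is possible) shows that the set of the exceptional `t ≤ T` has measure `T ^ (2 / 5)`, up to logarithms; (2) the third
variable, with only two values `z, z' ∈ Z` of size about `T`, squares the density of the exceptional set, since on average
over its coefficient the two translates of the exceptional set are independent; `T * (T ^ (- 3 / 5)) ^ 2` tends to `0`.
-/

set_option autoImplicit false

open Filter Topology MeasureTheory

namespace Pool.Agent.Results.MP_61161c_nt.TwoPrimesAndOnePower

/-- Let `Z` be a set of natural numbers with an element in every interval `[X, R X]`, `X ≥ 1`. For almost all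
`l ∈ (0, ∞) ^ 3`, all `h > 0` and all sufficiently large `t` there are primes `p`, `q` and `z ∈ Z` with
`t < l 0 * z + l 1 * p + l 2 * q ≤ t + h`. -/
theorem result (R : ℝ) (Z : Set ℕ) (hZ : ∀ X : ℝ, 1 ≤ X → ∃ z ∈ Z, X ≤ z ∧ (z : ℝ) ≤ R * X) :
    ∀ᵐ l : Fin 3 → ℝ, (∀ i, 0 < l i) → ∀ h : ℝ, 0 < h → ∀ᶠ t : ℝ in atTop,
      ∃ p q z : ℕ, p.Prime ∧ q.Prime ∧ z ∈ Z ∧ t < l 0 * z + l 1 * p + l 2 * q ∧
        l 0 * z + l 1 * p + l 2 * q ≤ t + h :=
  Pool.Agent.helper616_TW.two_primes_one R Z hZ

end Pool.Agent.Results.MP_61161c_nt.TwoPrimesAndOnePower
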